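import Pool.Agent.Y755.AX.Stm

/-!
Project AX (helper755), parts CE and ZGP.
-/

set_option autoImplicit false

open MeasureTheory ProbabilityTheory Filter Topology

namespace Pool.Agent.Y980.AX.CE

open Pool.Agent.Y755.AX

lemma tendsto_comp {u : Ultrafilter (ℝ → ℝ)} {d : ℝ → ℝ}
    (htend : ∀ x : ℝ, Tendsto (fun f : ℝ → ℝ => f x) u (𝓝 (d x)))
    (hev : ∀ᶠ f in (u : Filter (ℝ → ℝ)), IsE f) (x s : ℝ) (hs : |s| ≤ 1) :
    Tendsto (fun f : ℝ → ℝ => f (x + s * f x)) u (𝓝 (d (x + s * d x))) := by
  have h1 := htend (x + s * d x)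
  have h2 : Tendsto (fun f : ℝ → ℝ => f (x + s * f x) - f (x + s * d x)) u (𝓝 0) := by
    have h3 : Tendsto (fun f : ℝ → ℝ => |f x - d x|) u (𝓝 0) := by
      have := ((htend x).sub_const (d x)).abs
      simpa using this
    refine squeeze_zero_norm' (hev.mono fun f hf => ?_) h3
    have h4 := hf.1 (x + s * f x) (x + s * d x)
    rw [Real.norm_eq_abs]
    refine h4.trans ?_
    rw [show x + s * f x - (x + s * d x) = s * (f x - d x) by ring, abs_mul]
    exact mul_le_of_le_one_left (abs_nonneg _) hs
  have h5 := h2.add h1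
  simpa using h5

theorem t_CE : S_CE := by
  have hset : IsCompact {d : ℝ → ℝ | IsE d} := by
    have hc : IsCompact (Set.pi Set.univ (fun _ : ℝ => Set.Icc (0 : ℝ) 2)) :=
      isCompact_univ_pi fun _ => isCompact_Icc
    refine hc.of_isClosed_subset ?_ ?_
    · rw [isClosed_iff_ultrafilter]
      intro d u hu hmem
      have htend : ∀ x : ℝ, Tendsto (fun f : ℝ → ℝ => f x) u (𝓝 (d x)) := by
        intro x
        exact ((continuous_apply x).tendsto d).mono_left hu
      have hev : ∀ᶠ f in (u : Filter (ℝ → ℝ)), IsE f := hmem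
      refine ⟨?_, ?_, ?_, ?_⟩
      · intro x y
        exact le_of_tendsto (((htend x).sub (htend y)).abs) (hev.mono fun f hf => hf.1 x y)
      · intro x
        exact ⟨ge_of_tendsto (htend x) (hev.mono fun f hf => (hf.2.1 x).1),
          le_of_tendsto (htend x) (hev.mono fun f hf => (hf.2.1 x).2)⟩
      · intro x
        have h1 := tendsto_comp htend hev x 1 (by simp)
        have h2 := tendsto_comp htend hev x (-1) (by simp)
        have h3 : d (x + 1 * d x) * d (x + -1 * d x) = 0 := by
          refine tendsto_nhds_unique (h1.mul h2) ?_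
          refine tendsto_const_nhds.congr' (hev.mono fun f hf => ?_)
          show 0 = f (x + 1 * f x) * f (x + -1 * f x)
          rcases hf.2.2.1 x with h | h
          · rw [one_mul, h, zero_mul]
          · rw [show x + -1 * f x = x - f x by ring, h, mul_zero]
        rw [one_mul, show x + -1 * d x = x - d x by ring] at h3
        exact mul_eq_zero.mp h3
      · intro x y
        exact ge_of_tendsto ((htend x).add (htend y)) (hev.mono fun f hf => hf.2.2.2 x y)
    · intro d hd x _
      exact hd.2.1 x
  exact isCompact_iff_compactSpace.mp hset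

theorem t_ZGP : S_ZGP := by
  intro d
  obtain ⟨h1, h2, h3, h4⟩ := d.2
  refine ⟨?_, ?_⟩
  · intro x hx y hy hxy
    by_contra hlt
    push Not at hlt
    have h5 := h4 x y
    have hx' : d.1 x = 0 := hx
    have hy' : d.1 y = 0 := hy
    rw [hx', hy', add_zero] at h5
    have h6 : 0 < |x - y| := abs_pos.mpr (sub_ne_zero.mpr hxy)
    have h7 : 0 < min |x - y| (1 - |x - y|) := lt_min h6 (by linarith)
    linarith
  · intro t
    have h5 := h2 (t + 2)
    rcases h3 (t + 2) with h | h
    · exact ⟨t + 2 + d.1 (t + 2), h, by linarith [h5.1], by linarith [h5.2]⟩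
    · exact ⟨t + 2 - d.1 (t + 2), h, by linarith [h5.2], by linarith [h5.1]⟩

end Pool.Agent.Y980.AX.CE
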