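import Pool.Agent.Y755.AX.Stm

/-!
Project AX (helper755), part SHIG.
-/

set_option autoImplicit false

open MeasureTheory ProbabilityTheory Filter Topology

namespace Pool.Agent.Y980.AX.SHIG

open Pool.Agent.Y755.AX

/-- the function of a configuration -/
def vl (d : E) : ℝ → ℝ := fun x => ev x d

/-- the function of a translated configuration -/
def vt (t : ℝ) (d : E) : ℝ → ℝ := fun x => ev (x + t) d

lemma Gs_univ : Gs Set.univ = MeasurableSpace.comap vl MeasurableSpace.pi := by
  rw [MeasurableSpace.pi, MeasurableSpace.comap_iSup]
  simp only [Gs, Set.mem_univ, iSup_true, MeasurableSpace.comap_comp]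
  rfl

lemma law (hevc : S_EVC) (t : ℝ) (P : ProbabilityMeasure E) (hS : Shi (P : Measure E) t) :
    (P : Measure E).map (vt t) = (P : Measure E).map vl := by
  have hm : ∀ x, Measurable (ev x) := fun x => (hevc x).measurable
  have hval : Measurable vl := measurable_pi_lambda _ hm
  have htr : Measurable (vt t) := measurable_pi_lambda _ fun x => hm (x + t)
  haveI : IsFiniteMeasure ((P : Measure E).map vl) :=
    Measure.isFiniteMeasure_map _ _
  haveI : ∀ I : Finset ℝ, IsFiniteMeasure
      (((P : Measure E).map vl).map I.restrict) := fun I =>
    Measure.isFiniteMeasure_map _ _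
  refine IsProjectiveLimit.unique
    (P := fun I => ((P : Measure E).map vl).map I.restrict) ?_ ?_
  · intro I
    have hm1 : Measurable (I.restrict ∘ vt t) := (Finset.measurable_restrict I).comp htr
    have hm2 : Measurable (I.restrict ∘ vl) := (Finset.measurable_restrict I).comp hval
    haveI : IsFiniteMeasure ((P : Measure E).map (I.restrict ∘ vt t)) :=
      Measure.isFiniteMeasure_map _ _
    haveI : IsFiniteMeasure ((P : Measure E).map (I.restrict ∘ vl)) :=
      Measure.isFiniteMeasure_map _ _
    show ((P : Measure E).map (vt t)).map I.restrict = ((P : Measure E).map vl).map I.restrict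
    rw [Measure.map_map (Finset.measurable_restrict I) htr,
      Measure.map_map (Finset.measurable_restrict I) hval]
    refine ext_of_forall_integral_eq_of_IsFiniteMeasure fun f => ?_
    rw [integral_map hm1.aemeasurable f.continuous.aestronglyMeasurable,
      integral_map hm2.aemeasurable f.continuous.aestronglyMeasurable]
    have h1 := hS I.card (fun i => (I.equivFin.symm i : ℝ))
      (fun v => f fun i : I => v (I.equivFin i))
      (f.continuous.comp (continuous_pi fun i => continuous_apply _))
    simp only [Equiv.symm_apply_apply] at h1
    exact h1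
  · intro I
    rfl

theorem t_SHIG : S_EVC → S_SHIG := by
  intro hevc t P hS S hSm
  have hm : ∀ x, Measurable (ev x) := fun x => (hevc x).measurable
  have hval : Measurable vl := measurable_pi_lambda _ hm
  have htr : Measurable (vt t) := measurable_pi_lambda _ fun x => hm (x + t)
  rw [Gs_univ] at hSm
  obtain ⟨T, hT, rfl⟩ := hSm
  have h1 := Measure.map_apply (μ := (P : Measure E)) htr hT
  have h2 := Measure.map_apply (μ := (P : Measure E)) hval hT
  rw [law hevc t P hS] at h1
  exact h1.symm.trans h2

end Pool.Agent.Y980.AX.SHIG
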